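import Pool.Agent.W425.MM.Defs

set_option autoImplicit false

/-! # Project MM, part A5: the root for a facet -/

namespace Pool.Agent.W571.MM

open MvPolynomial Pool.Agent.W425.SG Pool.Agent.W425.SV Pool.Agent.W425.MM
open Pool.Agent.W426.SM (gord face)

/-- real numbers which together with `1` are linearly independent over `ℚ` -/
theorem exists_theta (r : ℕ) : ∃ θ : Fin r → ℝ, ∀ (q : Fin r → ℚ) (q0 : ℚ),
    ∑ j, (q j : ℝ) * θ j = q0 → ∀ j, q j = 0 := by
  obtain ⟨φ, hφ⟩ : ∃ φ : Fin (r + 1) → ℝ, LinearIndependent ℚ φ := by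
    refine (Module.le_rank_iff (R := ℚ) (M := ℝ) (n := r + 1)).1 ?_
    rw [Real.rank_rat_real]
    exact (Cardinal.natCast_lt_aleph0.trans Cardinal.aleph0_lt_continuum).le
  have h0 : φ 0 ≠ 0 := hφ.ne_zero 0
  refine ⟨fun j => φ j.succ / φ 0, fun q q0 h j => ?_⟩
  rw [Fintype.linearIndependent_iff] at hφ
  have h1 := hφ (Fin.cons (-q0) q) (by
    rw [Fin.sum_univ_succ]
    simp only [Fin.cons_zero, Fin.cons_succ, Rat.smul_def]
    have h2 : ∑ j : Fin r, (q j : ℝ) * φ j.succ = q0 * φ 0 := by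
      rw [← h, Finset.sum_mul]
      refine Finset.sum_congr rfl fun j _ => ?_
      field_simp
    rw [h2]
    push_cast
    ring) j.succ
  simpa using h1

theorem li_of {r : ℕ} {θ : Fin r → ℝ} (h : ∀ (q : Fin r → ℚ) (q0 : ℚ),
    ∑ j, (q j : ℝ) * θ j = q0 → ∀ j, q j = 0) (ρ : Fin r → ℚ) :
    LinearIndependent ℚ fun j => θ j - (ρ j : ℝ) := by
  rw [Fintype.linearIndependent_iff]
  intro q hq
  simp only [Rat.smul_def] at hq
  refine h q (∑ j, q j * ρ j) ?_
  push_cast
  have : ∑ j, (q j : ℝ) * (θ j - (ρ j : ℝ)) =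
      ∑ j, (q j : ℝ) * θ j - ∑ j, (q j : ℝ) * (ρ j : ℝ) := by
    rw [← Finset.sum_sub_distrib]
    exact Finset.sum_congr rfl fun j _ => by ring
  rw [this] at hq
  linarith

theorem a5 : TaskA1 → TaskA4 → TaskA5 := by
  classical
  intro hA1 hA4 r N v loc p hRel a hg hNB
  obtain ⟨J, hJc, hJf, hJli, hJNB, hJloc⟩ := hNB
  -- the order
  have hgle : ∀ j, gord v a ≤ ∑ i, a i * v j i := fun j => ciInf_le' _ j
  have ha : ∃ i, a i ≠ 0 := by
    by_contra hc
    push Not at hc
    have h0 : gord v a = 0 := by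
      unfold gord
      rcases isEmpty_or_nonempty (Fin r) with hr | hr
      · exact Nat.iInf_of_empty _
      · have : ∀ j : Fin r, ∑ i, a i * v j i = 0 := fun j =>
          Finset.sum_eq_zero fun i _ => by rw [hc i, zero_mul]
        simp [this]
    omega
  -- the coordinates
  obtain ⟨N', hN'⟩ : ∃ N', N' = Fintype.card {i : Fin N // a i ≠ 0} := ⟨_, rfl⟩
  have e : Fin N' ≃ {i : Fin N // a i ≠ 0} := hN' ▸ (Fintype.equivFin _).symm
  obtain ⟨U, hU⟩ : ∃ U : Fin N' → Fin N, ∀ i, U i = (e i).1 := ⟨fun i => (e i).1, fun _ => rfl⟩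
  have hUinj : Function.Injective U := by
    intro i i' h
    rw [hU, hU] at h
    exact e.injective (Subtype.ext h)
  have hUa : ∀ i, a (U i) ≠ 0 := fun i => by rw [hU]; exact (e i).2
  have hUr : ∀ i, i ∈ Set.range U ↔ a i ≠ 0 := by
    intro i
    constructor
    · rintro ⟨i', rfl⟩; exact hUa i'
    · intro h
      exact ⟨e.symm ⟨i, h⟩, by rw [hU]; simp⟩
  have hsum : ∀ f : Fin N → ℕ, (∀ i, a i = 0 → f i = 0) → ∑ i, f (U i) = ∑ i, f i := by
    intro f hf
    have h1 : ∑ i, f (U i) = ∑ i : {i : Fin N // a i ≠ 0}, f i.1 := by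
      rw [← e.sum_comp]
      exact Finset.sum_congr rfl fun i _ => by rw [hU]
    rw [h1, ← Fintype.sum_subtype_add_sum_subtype (fun i : Fin N => a i ≠ 0) f]
    have h2 : ∑ i : {i : Fin N // ¬ a i ≠ 0}, f i.1 = 0 :=
      Finset.sum_eq_zero fun i _ => hf i.1 (not_not.1 i.2)
    rw [h2, add_zero]
  have hN'pos : 0 < N' := by
    obtain ⟨i, hi⟩ := ha
    rw [hN']
    exact Fintype.card_pos_iff.2 ⟨⟨i, hi⟩⟩
  have hsv : ∀ j, ∑ i, a (U i) * v j (U i) = ∑ i, a i * v j i := fun j =>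
    hsum (fun i => a i * v j i) (fun i hi => by rw [hi, zero_mul])
  have hli : LinearIndependent ℚ (fun j : J => (fun i => (v j (U i) : ℚ) : Fin N' → ℚ)) := by
    let L : (Fin N' → ℚ) →ₗ[ℚ] ({i : Fin N // a i ≠ 0} → ℚ) :=
      LinearMap.funLeft ℚ ℚ e.symm
    refine LinearIndependent.of_comp L ?_
    have e1 : (L ∘ fun j : J => (fun i => (v j (U i) : ℚ) : Fin N' → ℚ)) =
        fun j : J => (fun i => (v j i : ℚ) : {i // a i ≠ 0} → ℚ) := by
      funext j i
      show ((v j (U (e.symm i)) : ℕ) : ℚ) = _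
      rw [hU, Equiv.apply_symm_apply]
    rw [e1]
    exact hJli
  -- uniqueness of the affine combination
  have huni : ∀ l (c c' : Fin r → ℚ), Comb (fun j i => v j (U i)) J l c →
      Comb (fun j i => v j (U i)) J l c' → c = c' := by
    rintro l c c' ⟨h1, -, h3⟩ ⟨h1', -, h3'⟩
    rw [Fintype.linearIndependent_iff] at hli
    have h4 := hli (fun j => c j - c' j) (by
      funext i
      rw [Finset.sum_apply]
      simp only [Pi.smul_apply, smul_eq_mul, Pi.zero_apply]
      have h5 : ∑ j : J, (c j - c' j) * (v j (U i) : ℚ) = ∑ j, (c j - c' j) * (v j (U i) : ℚ) := by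
        rw [Finset.sum_coe_sort J (fun j => (c j - c' j) * (v j (U i) : ℚ))]
        refine Finset.sum_subset (Finset.subset_univ J) fun j _ hj => ?_
        rw [h1 j hj, h1' j hj, sub_zero, zero_mul]
      rw [h5]
      have h6 : ∑ j, (c j - c' j) * (v j (U i) : ℚ) =
          ∑ j, c j * (v j (U i) : ℚ) - ∑ j, c' j * (v j (U i) : ℚ) := by
        rw [← Finset.sum_sub_distrib]
        exact Finset.sum_congr rfl fun j _ => by ring
      rw [h6, h3 i, h3' i, sub_self])
    funext j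
    by_cases hj : j ∈ J
    · have := h4 ⟨j, hj⟩
      exact sub_eq_zero.1 this
    · rw [h1 j hj, h1' j hj]
  -- the heights
  obtain ⟨θ0, hθ0⟩ := exists_theta r
  have hn : ∀ l, ∃ n : ℕ, (l ∈ J → n = 0) ∧ (l ∉ J → ∀ c : Fin r → ℚ,
      Comb (fun j i => v j (U i)) J l c → θ0 l - n < ∑ j, (c j : ℝ) * θ0 j) := by
    intro l
    by_cases hl : l ∈ J
    · exact ⟨0, fun _ => rfl, fun h => absurd hl h⟩
    · by_cases hc : ∃ c : Fin r → ℚ, Comb (fun j i => v j (U i)) J l c
      · obtain ⟨c, hc⟩ := hc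
        obtain ⟨n, hn⟩ := exists_nat_gt (θ0 l - ∑ j, (c j : ℝ) * θ0 j)
        refine ⟨n, fun h => absurd h hl, fun _ c' hc' => ?_⟩
        rw [huni l c' c hc' hc]
        linarith
      · exact ⟨0, fun _ => rfl, fun _ c hc' => absurd ⟨c, hc'⟩ hc⟩
  choose n hnJ hnl using hn
  have hθli : LinearIndependent ℚ fun j => θ0 j - (((n j : ℚ)) : ℝ) := li_of hθ0 fun j => (n j : ℚ)
  obtain ⟨C0, hC0⟩ := hA1 v U hUinj _ loc p (hRel _ hθli)
  obtain ⟨C, hCl, hCn⟩ : ∃ C : ℕ, (loc → C0 ≤ C) ∧ (¬ loc → C = 0) := by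
    by_cases hl : loc
    · exact ⟨⌈C0⌉₊, fun _ => Nat.le_ceil C0, fun h => absurd hl h⟩
    · exact ⟨0, fun h => absurd h hl, fun _ => rfl⟩
  have hRW := hC0 (C : ℝ) hCl
  have hθ'li : LinearIndependent ℚ fun j => θ0 j - (((n j : ℚ)) : ℝ) - (C : ℝ) * (hgt v U j : ℝ) := by
    have := li_of hθ0 fun j => (n j : ℚ) + (C : ℚ) * (hgt v U j : ℚ)
    convert this using 2 with j
    push_cast
    ring
  -- the heights of the coordinates outside the range
  have hhgt : ∀ j, ((hgt v U j : ℕ) : ℚ) = ∑ i, (if a i = 0 then (v j i : ℚ) else 0) := by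
    intro j
    unfold hgt
    push_cast
    refine Finset.sum_congr rfl fun i _ => ?_
    by_cases hi : a i = 0
    · have h1 : i ∉ Set.range U := fun h => (hUr i).1 h hi
      rw [if_neg h1, if_pos hi]
    · have h1 : i ∈ Set.range U := (hUr i).2 hi
      rw [if_pos h1, if_neg hi]
  have hAdm : Adm (fun j i => v j (U i)) (fun j => θ0 j - (((n j : ℚ)) : ℝ) -
      (C : ℝ) * (hgt v U j : ℝ)) J := by
    intro l hl c hc
    have h1 := hnl l hl c hc
    obtain ⟨hc1, hc2, hc3⟩ := hc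
    have h2 : ∑ j, (c j : ℝ) * (θ0 j - (((n j : ℚ)) : ℝ) - (C : ℝ) * (hgt v U j : ℝ)) =
        ∑ j, (c j : ℝ) * θ0 j - (C : ℝ) * ∑ j, (c j : ℝ) * (hgt v U j : ℝ) := by
      rw [Finset.mul_sum, ← Finset.sum_sub_distrib]
      refine Finset.sum_congr rfl fun j _ => ?_
      by_cases hj : j ∈ J
      · rw [hnJ j hj]
        push_cast
        ring
      · rw [hc1 j hj]
        simp
    show θ0 l - (((n l : ℚ)) : ℝ) - (C : ℝ) * (hgt v U l : ℝ) <
      ∑ j, (c j : ℝ) * (θ0 j - (((n j : ℚ)) : ℝ) - (C : ℝ) * (hgt v U j : ℝ))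
    rw [h2]
    have h3 : (C : ℝ) * ∑ j, (c j : ℝ) * (hgt v U j : ℝ) ≤ (C : ℝ) * (hgt v U l : ℝ) := by
      by_cases hloc : loc
      · refine mul_le_mul_of_nonneg_left ?_ (Nat.cast_nonneg C)
        have hfl : face v a l := by
          have h4 : ((∑ i, a i * v l i : ℕ) : ℚ) = (gord v a : ℚ) := by
            rw [← hsv l]
            push_cast
            have h5 : ∀ i, (a (U i) : ℚ) * (v l (U i) : ℚ) =
                ∑ j, c j * ((a (U i) : ℚ) * (v j (U i) : ℚ)) := by
              intro i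
              rw [← hc3 i, Finset.mul_sum]
              exact Finset.sum_congr rfl fun j _ => by ring
            rw [Finset.sum_congr rfl fun i _ => h5 i, Finset.sum_comm]
            have h6 : ∀ j, ∑ i, c j * ((a (U i) : ℚ) * (v j (U i) : ℚ)) = c j * (gord v a : ℚ) := by
              intro j
              rw [← Finset.mul_sum]
              by_cases hj : j ∈ J
              · have h7 : ((∑ i, a (U i) * v j (U i) : ℕ) : ℚ) = (gord v a : ℚ) := by
                  rw [hsv j, hJf j hj]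
                push_cast at h7
                rw [h7]
              · rw [hc1 j hj, zero_mul, zero_mul]
            rw [Finset.sum_congr rfl fun j _ => h6 j, ← Finset.sum_mul, hc2, one_mul]
          exact_mod_cast h4
        have h8 := hJloc hloc l hfl c hc1 (fun i hi => by
          obtain ⟨i', rfl⟩ := (hUr i).2 hi
          exact hc3 i')
        simp only [← hhgt] at h8
        have h9 : ((∑ j, c j * (hgt v U j : ℚ) : ℚ) : ℝ) ≤ ((hgt v U l : ℚ) : ℝ) := by
          exact_mod_cast h8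
        push_cast at h9
        exact h9
      · rw [hCn hloc]
        simp
    have h10 : (((n l : ℚ)) : ℝ) = (n l : ℝ) := by push_cast; rfl
    rw [h10]
    linarith
  have hfin := hA4 (fun j i => v j (U i)) (fun j => θ0 j - (((n j : ℚ)) : ℝ) -
      (C : ℝ) * (hgt v U j : ℝ)) hθ'li loc p hRW (fun i => a (U i)) (gord v a) hN'pos
      (fun i => Nat.pos_of_ne_zero (hUa i)) hg (fun j => by rw [hsv j]; exact hgle j) J
      (by rw [hJc, hN', Fintype.card_subtype]) (fun j hj => by rw [hsv j]; exact hJf j hj)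
      hli hAdm (fun i => hJNB (U i) (hUa i))
  have hsa : ∑ i, a (U i) = ∑ i, a i := hsum a fun i hi => hi
  rw [hsa] at hfin
  exact hfin

end Pool.Agent.W571.MM
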